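import Pool.Agent.J6H17.RF.Stm

/-! # RF-ASMC: the assembly of a proof -/

set_option autoImplicit false

namespace Pool.Agent.J6H8.RF.Asmc

open Pool.Agent.J6H17.RF

theorem main (h1 : S_LOG) (h2 : S_SUB) : S_ASMC := by
  intro Γ hax Pr μ hμ n e u x z π pe pu px pz pp hπ he hu hx hz hp
  obtain ⟨-, mp, -, -⟩ := h1
  obtain ⟨a1, a2, a3, a4⟩ := h2 Pr μ hμ n e u x z
  have single : ∀ φ, LogAx φ → IsProof Γ [φ] := fun φ h => ⟨trivial, Or.inl (hax φ h)⟩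
  have p1 := mp Γ (J0 Pr μ n) (J1 Pr μ n e) [] π (single _ a1) hπ
  have p2 := mp Γ (J1 Pr μ n e) (J2 Pr μ n e u) [] _ (single _ a2) p1
  have p3 := mp Γ (J2 Pr μ n e u) (J3 Pr μ n e u x) [] _ (single _ a3) p2
  have p4 := mp Γ (J3 Pr μ n e u x) (J4 Pr μ n e u x z) [] _ (single _ a4) p3
  have p5 := mp Γ (lenLe e n) (J5 Pr μ n e u x z) _ pe p4 he
  have p6 := mp Γ (lenLe u n) (J6 Pr μ n e u x z) _ pu p5 hu
  have p7 := mp Γ (lenLe x n) (J7 Pr μ n e u x z) _ px p6 hx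
  have p8 := mp Γ (lenLe z n) (J8 Pr μ e u x z) _ pz p7 hz
  have p9 := mp Γ (at4 Pr e u x z) (at3 μ e x z) _ pp p8 hp
  exact p9

end Pool.Agent.J6H8.RF.Asmc
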